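import Pool.Agent.Q132.AB.Rand

/-!
# The Pisot substitution conjecture with arbitrary unimodular factors

Letters are `0, ..., m` with `m ≥ 1`; a substitution is a map `S` from letters to words; `inc S` is
its incidence matrix, `comp S T = S ∘ T`, `compList [S₁, ..., S_n] = S₁ ∘ ... ∘ S_n` and
`iter S k = S^k`. `Uni T` says `det (inc T) = ± 1` (nothing else is assumed on `T`: it need not be
Pisot, primitive or irreducible). `Good σ` says that `σ` is a unimodular irreducible Pisot
substitution (`PisotMat`) whose subshift is semi-conjugate to a minimal toral translation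
(`SemiConjToral`), both as in the problem file, i.e. that `σ` belongs to the class of the
conjecture and satisfies it.

* (1) Density. Let `σ` be good and `F` a finite set of substitutions of determinant `± 1`. There is
  `η > 0` such that every composition of `n ≥ 1` factors from `F ∪ {σ}`, at most `η n` of which are
  different from `σ`, in any order, is good.
* (2) Random compositions. Let `τ₀` be good and `τ₁, ..., τ_r` of determinant `± 1`. There is
  `p₀ < 1` such that for all laws which give `τ₀` probability at least `p₀` the composition of `n`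
  independent factors fails to be good with probability at most `2^(-n)`, for all `n ≥ 1`.
* (3) Let `G` be a finite set of good substitutions. There are `β > 1` and `K` such that every
  composition of any number `≥ 1` of factors `T ∘ σ^k`, where `σ ∈ G`, `k ≥ K` and `T` is any
  substitution of determinant `± 1` with images of length `≤ β^k`, is good. So for every `T` of
  determinant `± 1` the substitution `T ∘ σ^k` is good for all `k ≥ C (1 + log max |T(a)|)`. The
  same holds for factors `T ∘ σ^k ∘ T'`, if `k ≥ k₀ ≥ K` and `T`, `T'` have images of length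
  `≤ β^k₀`, with one `k₀` for the whole composition.
* (4) Unconditionally: for every finite set `F` of substitutions of determinant `± 1` there is a
  good substitution `S₀` such that all compositions of any number of factors `T ∘ S₀^k ∘ T'` with
  `T, T' ∈ F` and `k ≥ 1` are good. Hence no finite composition of substitutions of determinant
  `± 1` at the beginning, at the end or in the middle prevents the conjecture.
* (5) A multiplicative criterion. Say that `S` has the certificate `(B, c, g)` (`Cert`) if for all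
  letters `x`, `y` the paths of `S(x)S(y)` and of `S(y)S(x)` are `B`-close (`Cls`: if two vertices,
  one of each path, have one coordinate in common, then the sum of the positive parts of the
  coordinates of their difference is at most `B`) and differ in at most `c` edges (`cst`), and all
  images `S(x)` have at least `g` letters. If the factors of a composition have certificates
  `(B_i, c_i, g_i)` with `∏ B_i c_i < ∏ g_i`, then the conjecture holds for the composition if it
  is unimodular, irreducible and Pisot. The factors are arbitrary.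
* (6) The criterion is sharp: a unimodular irreducible Pisot substitution `σ` satisfies the
  conjecture if and only if some power `σ^N` has a certificate `(B, c, g)` with `B c < g`.

The matrices of the factors are arbitrary and do not commute. In (1)-(4) the composition is proved
to be unimodular, irreducible and Pisot.

Main points of the proof. Let `c(S)` be the maximal number of edges of the path of `S(xy)` which are
no edges of the path of `S(yx)`, for letters `x`, `y`. (i) If `σ` is good then `c(σ^n) ≤ C θ^n` with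
`θ` smaller than the leading eigenvalue. (ii) For every substitution `S` whatsoever
`c(S ∘ σ^n) ≤ B c(S) c(σ^n)` with a constant `B` of `σ`: two words with the same letters and close
paths are transformed into each other by transpositions of neighbours whose number is at most `B`
times the number of edges which are not common. (iii) `c(S ∘ T) ≤ (max |T(a)|)² c(S)`. Hence the
costs of powers of the composition are exponentially small compared with the lengths, and this
gives coincidences. The Pisot property comes from an invariant cone of row vectors and a contraction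
on the kernels.

Built on the library `Pool/Agent/H812R2/PI` (helper812 and others).
-/

set_option autoImplicit false

namespace Pool.Agent.Results.MP_e732b0_an.ArbitraryUnimodularFactors

open Pool.Agent.H812R2.PI Pool.Agent.Q132.PT Pool.Agent.Q132.AB
open scoped BigOperators

variable {m : ℕ}

theorem nb_filter (σ : Fin (m+1) → List (Fin (m+1))) (w : List (Fin (m+1) → List (Fin (m+1)))) :
    nb σ w = (w.filter (fun S => S ≠ σ)).length := by
  induction w with
  | nil => rfl
  | cons c w ih =>
    simp only [nb]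
    by_cases h : c = σ
    · rw [if_pos h, List.filter_cons_of_neg (by simpa using h), ih, Nat.zero_add]
    · rw [if_neg h, List.filter_cons_of_pos (by simpa using h), ih, List.length_cons,
        Nat.add_comm]

theorem exists_quad {P : (Fin (m+1) → List (Fin (m+1))) × (Fin (m+1) → List (Fin (m+1))) × ℕ ×
      (Fin (m+1) → List (Fin (m+1))) → Prop} (l : List (Fin (m+1) → List (Fin (m+1))))
    (h : ∀ S ∈ l, ∃ q, P q ∧ S = blkQ q) :
    ∃ l' : List ((Fin (m+1) → List (Fin (m+1))) × (Fin (m+1) → List (Fin (m+1))) × ℕ ×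
      (Fin (m+1) → List (Fin (m+1)))), l = l'.map blkQ ∧ ∀ q ∈ l', P q := by
  induction l with
  | nil => exact ⟨[], rfl, fun q hq => absurd hq (by simp)⟩
  | cons S l ih =>
    obtain ⟨l', h1, h2⟩ := ih fun T hT => h T (List.mem_cons_of_mem _ hT)
    obtain ⟨q, hq, hS⟩ := h S (List.mem_cons_self ..)
    refine ⟨q :: l', by rw [List.map_cons, ← h1, ← hS], fun q' hq' => ?_⟩
    rcases List.mem_cons.1 hq' with rfl | hq'
    · exact hq
    · exact h2 q' hq'

theorem uni_id : Uni (fun a : Fin (m+1) => [a]) := by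
  left
  rw [JComp_inc_id, Matrix.det_one]

/-- bound for the lengths of the images -/
theorem len_bdd (F : Finset (Fin (m+1) → List (Fin (m+1)))) :
    ∃ L : ℝ, ∀ T ∈ F, ∀ a, ((T a).length : ℝ) ≤ L := by
  classical
  induction F using Finset.induction_on with
  | empty => exact ⟨0, fun T hT => absurd hT (by simp)⟩
  | insert s F _ ih =>
    obtain ⟨L, hL⟩ := ih
    obtain ⟨L', hL'⟩ := (Set.finite_range fun a : Fin (m+1) => ((s a).length : ℝ)).bddAbove
    refine ⟨max L L', fun T hT a => ?_⟩
    rcases Finset.mem_insert.1 hT with rfl | hT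
    · exact (hL' ⟨a, rfl⟩).trans (le_max_right _ _)
    · exact (hL T hT a).trans (le_max_left _ _)

theorem part_one (hm : 1 ≤ m) (G : Finset (Fin (m+1) → List (Fin (m+1)))) (hG : ∀ σ ∈ G, Good σ) :
    ∃ (β : ℝ) (K : ℕ), 1 < β ∧
      (∀ l : List (Fin (m+1) → List (Fin (m+1))), l ≠ [] →
        (∀ S ∈ l, ∃ (T σ : Fin (m+1) → List (Fin (m+1))) (k : ℕ), Uni T ∧ σ ∈ G ∧ K ≤ k ∧
          (∀ a, ((T a).length : ℝ) ≤ β ^ k) ∧ S = comp T (iter σ k)) → Good (compList l)) ∧
      (∀ k₀ ≥ K, ∀ l : List (Fin (m+1) → List (Fin (m+1))), l ≠ [] →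
        (∀ S ∈ l, ∃ (T T' σ : Fin (m+1) → List (Fin (m+1))) (k : ℕ), Uni T ∧ Uni T' ∧ σ ∈ G ∧
          k₀ ≤ k ∧ (∀ a, ((T a).length : ℝ) ≤ β ^ k₀) ∧ (∀ a, ((T' a).length : ℝ) ≤ β ^ k₀) ∧
          S = comp (comp T (iter σ k)) T') → Good (compList l)) := by
  obtain ⟨R, β, K, hR, hβ, hK⟩ := fin_block G hG
  refine ⟨β, K, hβ, fun l hne hl => ?_, fun k₀ hk₀ l hne hl => ?_⟩
  · refine main_list hm hR l hne (fun S hS => ?_) (Uni.list l fun S hS => ?_)
    · obtain ⟨T, σ, k, hT, hσ, hk, hL, rfl⟩ := hl S hS
      refine (hK σ hσ k hk).1 T hT.ne fun a => (hL a).trans ?_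
      have h1 : 1 ≤ β ^ k := one_le_pow₀ hβ.le
      nlinarith
    · obtain ⟨T, σ, k, hT, hσ, hk, hL, rfl⟩ := hl S hS
      exact hT.comp (Uni.iter (hG σ hσ).1.2.1 k)
  · obtain ⟨l', rfl, hl'⟩ := exists_quad (P := fun q => q.2.1 ∈ G ∧ k₀ ≤ q.2.2.1 ∧ Uni q.1 ∧
      Uni q.2.2.2 ∧ (∀ a, ((q.1 a).length : ℝ) ≤ β ^ k₀) ∧
      (∀ a, ((q.2.2.2 a).length : ℝ) ≤ β ^ k₀)) l (fun S hS => by
        obtain ⟨T, T', σ, k, hT, hT', hσ, hk, hL, hL', rfl⟩ := hl S hS
        exact ⟨(T, σ, k, T'), ⟨hσ, hk, hT, hT', hL, hL'⟩, rfl⟩)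
    exact two_sided hm hR hβ hG hK k₀ hk₀ l' (fun h => hne (by rw [h]; rfl)) hl'

theorem part_two (hm : 1 ≤ m) (G F : Finset (Fin (m+1) → List (Fin (m+1))))
    (hG : ∀ σ ∈ G, Good σ) (hF : ∀ T ∈ F, Uni T) :
    ∃ K : ℕ, ∀ l : List (Fin (m+1) → List (Fin (m+1))), l ≠ [] →
      (∀ S ∈ l, ∃ T ∈ F, ∃ T' ∈ F, ∃ σ ∈ G, ∃ k ≥ K, S = comp (comp T (iter σ k)) T') →
      Good (compList l) := by
  obtain ⟨β, K, hβ, -, h⟩ := part_one hm G hG
  obtain ⟨L, hL⟩ := len_bdd F
  obtain ⟨K', hK'⟩ := Filter.eventually_atTop.1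
    ((tendsto_pow_atTop_atTop_of_one_lt hβ).eventually_ge_atTop L)
  refine ⟨max K K', fun l hne hl => h (max K K') (le_max_left _ _) l hne fun S hS => ?_⟩
  obtain ⟨T, hT, T', hT', σ, hσ, k, hk, rfl⟩ := hl S hS
  have hb := hK' (max K K') (le_max_right _ _)
  exact ⟨T, T', σ, k, hF T hT, hF T' hT', hσ, hk, fun a => (hL T hT a).trans hb,
    fun a => (hL T' hT' a).trans hb, rfl⟩

/-- there is a good substitution in every dimension -/
theorem exists_good (hm : 1 ≤ m) : ∃ σ : Fin (m+1) → List (Fin (m+1)), Good σ := by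
  obtain ⟨a, ha⟩ : ∃ a : Fin (m+1) → ℕ, a = fun j => if j = 0 then m + 1 else 1 := ⟨_, rfl⟩
  obtain ⟨σ, hσ⟩ : ∃ σ : Fin (m+1) → List (Fin (m+1)), σ = fun j =>
    List.replicate (a j) 0 ++ if (j : ℕ) < m then [j + 1] else [] := ⟨_, rfl⟩
  have h1 := comp_loops hm a (by
    rw [ha]
    have : (Fin.last m) ≠ (0 : Fin (m+1)) := by
      intro h
      have := congrArg Fin.val h
      simp at this
      omega
    simp [this]) (by
      have h2 : ∑ k ∈ Finset.univ.erase (0 : Fin (m+1)), a k = m := by
        rw [Finset.sum_congr rfl fun k hk => show a k = 1 by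
          rw [ha]; simp [Finset.ne_of_mem_erase hk]]
        rw [Finset.sum_const, Finset.card_erase_of_mem (Finset.mem_univ _), Finset.card_univ,
          Fintype.card_fin]
        simp
      rw [h2, ha]
      simp) [σ] (by simp) (by
      intro τ hτ
      rw [List.mem_singleton] at hτ
      rw [hτ, hσ]
      intro j
      exact List.Perm.refl _)
  refine ⟨σ, ?_⟩
  have h2 : compList [σ] = σ := by
    simp only [compList]
    exact comp_id_right σ
  rw [h2] at h1
  exact h1

open Classical in
theorem result (hm : 1 ≤ m) :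
    -- (1)
    (∀ σ : Fin (m+1) → List (Fin (m+1)), Good σ →
      ∀ F : Finset (Fin (m+1) → List (Fin (m+1))), (∀ T ∈ F, Uni T) →
      ∃ η : ℝ, 0 < η ∧ ∀ w : List (Fin (m+1) → List (Fin (m+1))), w ≠ [] →
        (∀ S ∈ w, S = σ ∨ S ∈ F) → ((w.filter (fun S => S ≠ σ)).length : ℝ) ≤ η * w.length →
        Good (compList w)) ∧
    -- (2)
    (∀ (r : ℕ) (τ : Fin (r+1) → Fin (m+1) → List (Fin (m+1))), Good (τ 0) → (∀ i, Uni (τ i)) →
      ∃ p₀ : ℝ, p₀ < 1 ∧ ∀ p : Fin (r+1) → ℝ, (∀ i, 0 ≤ p i) → ∑ i, p i = 1 → p₀ ≤ p 0 →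
        ∀ n ≥ 1, (∑ f : Fin n → Fin (r+1),
          if Good (compList (List.ofFn fun i => τ (f i))) then 0 else ∏ i, p (f i)) ≤
          (1 / 2 : ℝ) ^ n) ∧
    -- (3)
    (∀ G : Finset (Fin (m+1) → List (Fin (m+1))), (∀ σ ∈ G, Good σ) →
      ∃ (β : ℝ) (K : ℕ), 1 < β ∧
        (∀ l : List (Fin (m+1) → List (Fin (m+1))), l ≠ [] →
          (∀ S ∈ l, ∃ (T σ : Fin (m+1) → List (Fin (m+1))) (k : ℕ), Uni T ∧ σ ∈ G ∧ K ≤ k ∧
            (∀ a, ((T a).length : ℝ) ≤ β ^ k) ∧ S = comp T (iter σ k)) → Good (compList l)) ∧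
        (∀ k₀ ≥ K, ∀ l : List (Fin (m+1) → List (Fin (m+1))), l ≠ [] →
          (∀ S ∈ l, ∃ (T T' σ : Fin (m+1) → List (Fin (m+1))) (k : ℕ), Uni T ∧ Uni T' ∧ σ ∈ G ∧
            k₀ ≤ k ∧ (∀ a, ((T a).length : ℝ) ≤ β ^ k₀) ∧ (∀ a, ((T' a).length : ℝ) ≤ β ^ k₀) ∧
            S = comp (comp T (iter σ k)) T') → Good (compList l))) ∧
    -- (4)
    (∀ F : Finset (Fin (m+1) → List (Fin (m+1))), (∀ T ∈ F, Uni T) →
      ∃ S₀ : Fin (m+1) → List (Fin (m+1)), Good S₀ ∧
        ∀ l : List (Fin (m+1) → List (Fin (m+1))), l ≠ [] →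
          (∀ S ∈ l, ∃ T ∈ F, ∃ T' ∈ F, ∃ k ≥ 1, S = comp (comp T (iter S₀ k)) T') →
          Good (compList l)) ∧
    -- (5)
    (∀ (B c g : (Fin (m+1) → List (Fin (m+1))) → ℕ) (l : List (Fin (m+1) → List (Fin (m+1)))),
      (∀ S ∈ l, Cert S (B S) (c S) (g S)) →
      (l.map fun S => B S * c S).prod < (l.map g).prod →
      PisotMat (inc (compList l)) → SemiConjToral (compList l)) ∧
    -- (6)
    (∀ σ : Fin (m+1) → List (Fin (m+1)), PisotMat (inc σ) →
      (SemiConjToral σ ↔ ∃ N ≥ 1, ∃ B c g : ℕ, Cert (iter σ N) B c g ∧ B * c < g)) := by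
  refine ⟨fun σ hσ F hF => ?_, fun r τ h0 hU => random_comp hm τ h0 hU,
    fun G hG => part_one hm G hG,
    fun F hF => ?_, fun B c g l hl hlt hM => cert_semi B c g l hl hlt hM,
    fun σ hM => cert_iff hM⟩
  · obtain ⟨η, hη, h⟩ := density hm hσ F hF
    refine ⟨η, hη, fun w hne hw hcnt => h w hne hw ?_⟩
    rw [nb_filter]
    convert hcnt
  obtain ⟨σ, hσ⟩ := exists_good hm
  obtain ⟨K, hK⟩ := part_two hm {σ} (insert (fun a : Fin (m+1) => [a]) F)
    (fun τ hτ => by rw [Finset.mem_singleton] at hτ; rw [hτ]; exact hσ)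
    (fun T hT => by
      rcases Finset.mem_insert.1 hT with rfl | hT
      · exact uni_id
      · exact hF T hT)
  have hid : (fun a : Fin (m+1) => [a]) ∈ insert (fun a : Fin (m+1) => [a]) F :=
    Finset.mem_insert_self _ _
  refine ⟨iter σ K, ?_, fun l hne hl => hK l hne fun S hS => ?_⟩
  · have h1 := hK [iter σ K] (by simp) (fun S hS => by
      rw [List.mem_singleton] at hS
      refine ⟨_, hid, _, hid, σ, Finset.mem_singleton_self _, K, le_rfl, ?_⟩
      rw [hS, comp_id_right, comp_id_left])
    have h2 : compList [iter σ K] = iter σ K := by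
      simp only [compList]
      exact comp_id_right _
    rw [h2] at h1
    exact h1
  · obtain ⟨T, hT, T', hT', k, hk, rfl⟩ := hl S hS
    refine ⟨T, Finset.mem_insert_of_mem hT, T', Finset.mem_insert_of_mem hT', σ,
      Finset.mem_singleton_self _, K * k, ?_, ?_⟩
    · exact Nat.le_mul_of_pos_right K hk
    · rw [iter_iter]

end Pool.Agent.Results.MP_e732b0_an.ArbitraryUnimodularFactors
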