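import Pool.Agent.Q132.PC.Zero
import Pool.Agent.Q132.PC.Wgt

/-!
# Which compositions fail the Pisot substitution conjecture?

Let `τ 0, ..., τ (r-1)` be unimodular irreducible Pisot substitutions on `m + 1` letters whose
incidence matrices commute (`r` and the substitutions are arbitrary).  For a word `w = i₁ ... i_k`
let `τ_w = τ i₁ ∘ ... ∘ τ i_k` (`compList (w.map τ)`).  Say that `w` is good if the substitution
dynamical system of `τ_w` is semi-conjugate to a minimal toral translation (continuous surjection,
exactly one preimage outside a null set) and that `w` fails otherwise.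

* All `τ_w`, `w` nonempty, are unimodular irreducible Pisot substitutions.
* Absorption, with one exponent for the whole family: there is `K` such that, for every good word
  `w`, every word which contains `w ^ K` as a factor is good.
* Zero-one law: either all nonempty words fail, or for every probability vector `p` with positive
  entries the probability that a word of `k` independent letters with the law `p` fails is at most
  `C exp (- c k)`; in particular the proportion of failing words of length `k` is at most
  `C exp (- c k)`.
* Being good is invariant under rotation of words, and a power of a word is good if and only if the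
  word is.
* The set of failing words is a regular language.

The key step is a converse for single substitutions (`pair_close`, `maj_hit`): if the system of `σ`
is semi-conjugate to a toral translation then in some power of `σ` all overlapping pairs of edges
of bounded distance have a common edge in their images.

Built on `Pool/Agent/H812R2/PI`, `Pool/Agent/TH100/Pisot` and `Pool/Agent/Q132/PC`.
-/

set_option autoImplicit false

namespace Pool.Agent.Results.MP_e732b0_an.FailingCompositions

open Pool.Agent.H812R2.PI Pool.Agent.Q132.PC
open scoped BigOperators Classical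

theorem result {m r : ℕ} (τ : Fin r → Fin (m+1) → List (Fin (m+1)))
    (hτ : ∀ i, PisotMat (inc (τ i)))
    (hc : ∀ i j, inc (τ i) * inc (τ j) = inc (τ j) * inc (τ i)) :
    (∀ w : List (Fin r), w ≠ [] → PisotMat (inc (compList (w.map τ)))) ∧
    (∃ K : ℕ, 1 ≤ K ∧ ∀ w : List (Fin r), w ≠ [] → SemiConjToral (compList (w.map τ)) →
      ∀ l₁ l₂ : List (Fin r), SemiConjToral
        (compList ((l₁ ++ (List.replicate K w).flatten ++ l₂).map τ))) ∧
    ((∀ w : List (Fin r), w ≠ [] → ¬ SemiConjToral (compList (w.map τ))) ∨
      ∀ p : Fin r → ℝ, (∀ i, 0 < p i) → ∑ i, p i = 1 → ∃ C c : ℝ, 0 < c ∧ ∀ k : ℕ,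
        (∑ f : Fin k → Fin r, if SemiConjToral (compList ((List.ofFn f).map τ)) then 0 else
          ∏ i, p (f i)) ≤ C * Real.exp (-(c * k))) ∧
    (∀ u v : List (Fin r), SemiConjToral (compList ((u ++ v).map τ)) ↔
      SemiConjToral (compList ((v ++ u).map τ))) ∧
    (∀ w : List (Fin r), w ≠ [] → ∀ k : ℕ, 1 ≤ k →
      (SemiConjToral (compList (((List.replicate k w).flatten).map τ)) ↔
        SemiConjToral (compList (w.map τ)))) ∧
    Language.IsRegular ({w : List (Fin r) | w ≠ [] ∧ ¬ SemiConjToral (compList (w.map τ))} :
      Language (Fin r)) := by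
  rcases isEmpty_or_nonempty (Fin r) with hr | ⟨⟨i₀⟩⟩
  · have hnil : ∀ w : List (Fin r), w = [] := by
      intro w
      cases w with
      | nil => rfl
      | cons i w => exact hr.elim i
    refine ⟨fun w hw => absurd (hnil w) hw, ⟨1, le_rfl, fun w hw => absurd (hnil w) hw⟩,
      Or.inl fun w hw => absurd (hnil w) hw, fun u v => ?_, fun w hw => absurd (hnil w) hw, ?_⟩
    · rw [hnil u, hnil v]
    · apply Language.IsRegular.of_finite_range_leftQuotient
      refine (Set.finite_singleton (Language.leftQuotient
        ({w : List (Fin r) | w ≠ [] ∧ ¬ SemiConjToral (compList (w.map τ))} :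
          Language (Fin r)) [])).subset ?_
      rintro _ ⟨w, rfl⟩
      rw [hnil w]
      exact rfl
  obtain ⟨h1, ⟨K, hK1, hK⟩, hpow, hreg⟩ := structure_theorem τ hτ hc i₀
  have hrot : ∀ u v : List (Fin r), SemiConjToral (cw τ (u ++ v)) → SemiConjToral (cw τ (v ++ u)) := by
    intro u v h
    rcases eq_or_ne (u ++ v) [] with h0 | h0
    · rw [List.append_eq_nil_iff] at h0
      rw [h0.1, h0.2] at h ⊢
      exact h
    · have h0' : v ++ u ≠ [] := by
        intro h2
        rw [List.append_eq_nil_iff] at h2
        exact h0 (by rw [h2.1, h2.2]; rfl)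
      have h2 : ∀ k, wp (v ++ u) (k + 1) = v ++ wp (u ++ v) k ++ u := by
        intro k
        induction k with
        | zero => simp [wp_succ, wp_zero]
        | succ k ih => rw [wp_succ, ih, wp_succ]; simp [List.append_assoc]
      have h3 := hK (u ++ v) h0 h v u
      rw [← h2 K] at h3
      exact (hpow (v ++ u) h0' (K + 1) (by omega)).1 h3
  refine ⟨h1, ⟨K, hK1, hK⟩, ?_, fun u v => ⟨hrot u v, hrot v u⟩, hpow, hreg⟩
  by_cases hall : ∀ w : List (Fin r), w ≠ [] → ¬ SemiConjToral (compList (w.map τ))
  · exact Or.inl hall
  · right
    push Not at hall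
    obtain ⟨w, hw, hS⟩ := hall
    intro p hp hsum
    have hv : wp w K ≠ [] := by
      intro h
      have h2 := wp_length w K
      rw [h, List.length_nil] at h2
      have h3 := List.length_pos_of_ne_nil hw
      have h4 : 0 < K * w.length := Nat.mul_pos hK1 h3
      omega
    obtain ⟨C, c, hc0, hC⟩ := weight_avoid p (fun i => (hp i).le) hsum (wp w K) hv
      (fun a _ => hp a)
    refine ⟨C, c, hc0, fun k => le_trans (Finset.sum_le_sum fun f _ => ?_) (hC k)⟩
    have h0 : 0 ≤ ∏ i, p (f i) := Finset.prod_nonneg fun i _ => (hp _).le
    by_cases h2 : ∃ l₁ l₂ : List (Fin r), List.ofFn f = l₁ ++ wp w K ++ l₂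
    · rw [if_pos h2]
      obtain ⟨l₁, l₂, hl⟩ := h2
      have h5 : SemiConjToral (compList ((l₁ ++ wp w K ++ l₂).map τ)) := hK w hw hS l₁ l₂
      rw [hl, if_pos h5]
    · rw [if_neg h2]
      split_ifs
      · exact h0
      · exact le_rfl

end Pool.Agent.Results.MP_e732b0_an.FailingCompositions
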