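import Pool.Agent.Q132.PT.All

/-!
# The Pisot substitution conjecture for matrices with many loops at one letter

Letters are `0, ..., m` with `m ≥ 1`. `inc σ` is the incidence matrix of `σ` (entry `(i,j)`: number
of letters `i` in `σ j`), `compList [τ₁, ..., τ_k] = τ₁ ∘ ... ∘ τ_k`, `PisotMat M` says that `M` is
unimodular, irreducible and Pisot as in the problem file, `SemiConjToral σ` says that the subshift
of `σ` is semi-conjugate to a minimal toral translation as in the problem file.

* (1) Companion matrices. Let `a₀ > a₁ + ... + a_m`, `a_m = 1`, `a_i ≥ 0`. Every composition of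
  substitutions of the form `j ↦` any arrangement of `a_j` letters `0` and one letter `j + 1`
  (`j < m`), `m ↦ 0` (`Companion a`), is a unimodular irreducible Pisot substitution and satisfies
  the conjecture. (Characteristic polynomial `x^(m+1) - a₀ x^m - ... - a_m` for a single factor.)
* (2) Varying companion matrices: the same for compositions of substitutions of this form with
  different vectors `a`, if `(m+1) a_j + m ≤ a₀` for `j ≥ 1` for each factor.
* (3) Loops. Let `M` be a matrix of determinant `± 1` such that every cycle of its graph passes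
  through the letter `0`, i.e. (order of the letters) `M i j = 0` for `1 ≤ i ≤ j`. Let `p_j` be the
  number of paths from `j ≥ 1` to `0` (or any upper solution of the recursion for these numbers),
  so that `∑_{k ≥ 1} p_k M_{k0}` is the number of first return loops at `0` of length `≥ 2`. If this
  number is smaller than the number `M₀₀` of loops of length one, then every composition of
  substitutions with the incidence matrix `M` is unimodular, irreducible, Pisot and satisfies the
  conjecture.
* (4) The same for compositions of substitutions with different matrices which differ in the row of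
  the letter `0` only: `T` gives the other rows, `V_k` is the number of paths from `0` to `k` (or any
  upper solution of the recursion), and `(m+1) V_j M_{0j} + m ≤ M₀₀` is the condition on each factor.
* (5) The long letter criterion behind (1)-(4): positive weights `r` (with `r₀ = 1`) and `w`
  (with `w₀ = 0`) and `η < 1` such that for all factors `M` and all letters `j ≥ 1`
  `∑_k r_k M_{kj} ≤ r_j M₀₀` and `∑_k w_k (M_{kj} + r_j M_{k0}) ≤ η w_j`.
* (6) The permanental criterion: if `X_{ij} > 0` for `i ≠ j`, `X_{ii} = 0`, and each factor `τ`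
  satisfies `∑_{k,k'} M_{ki} M_{k'j} X_{kk'} ≤ θ_τ X_{ij}` (`i ≠ j`, `M` the matrix of `τ`), and the
  product of the numbers `θ_τ` is smaller than the leading eigenvalue of the composition, then the
  composition satisfies the conjecture if it is unimodular, irreducible and Pisot.

The order of the letters in the images is arbitrary in all items.

The proof: the number of edges of the path of `S(ij)` which are not edges of the path of `S(ji)`
is subadditive under transpositions of letters, so that it grows at most like a product of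
off-diagonal permanents, while the lengths grow like the leading eigenvalue.

Built on the library `Pool/Agent/H812R2/PI` (helper812 and others).
-/

set_option autoImplicit false

namespace Pool.Agent.Results.MP_e732b0_an.FirstReturnLoops

open Pool.Agent.H812R2.PI Pool.Agent.Q132.PT
open scoped BigOperators

theorem result {m : ℕ} (hm : 1 ≤ m) (l : List (Fin (m+1) → List (Fin (m+1)))) (hne : l ≠ []) :
    -- (1)
    (∀ a : Fin (m+1) → ℕ, a (Fin.last m) = 1 → ∑ k ∈ Finset.univ.erase 0, a k < a 0 →
      (∀ τ ∈ l, Companion a τ) → PisotMat (inc (compList l)) ∧ SemiConjToral (compList l)) ∧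
    -- (2)
    ((∀ τ ∈ l, ∃ a : Fin (m+1) → ℕ, Companion a τ ∧ a (Fin.last m) = 1 ∧
        ∀ j, j ≠ 0 → (m + 1) * a j + m ≤ a 0) →
      PisotMat (inc (compList l)) ∧ SemiConjToral (compList l)) ∧
    -- (3)
    (∀ M : Matrix (Fin (m+1)) (Fin (m+1)) ℤ, (∀ i j, i ≠ 0 → j ≠ 0 → i ≤ j → M i j = 0) →
      (M.det = 1 ∨ M.det = -1) → ∀ p : Fin (m+1) → ℤ,
      (∀ j, j ≠ 0 → M 0 j + ∑ k ∈ Finset.univ.filter (j < ·), p k * M k j ≤ p j) →
      ∑ k ∈ Finset.univ.erase 0, p k * M k 0 < M 0 0 →
      (∀ τ ∈ l, inc τ = M) → PisotMat (inc (compList l)) ∧ SemiConjToral (compList l)) ∧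
    -- (4)
    (∀ T : Matrix (Fin (m+1)) (Fin (m+1)) ℤ, (∀ i j, 0 ≤ T i j) →
      (∀ i j, i ≠ 0 → j ≠ 0 → i ≤ j → T i j = 0) → ∀ V : Fin (m+1) → ℤ,
      (∀ k, k ≠ 0 → 1 ≤ V k) →
      (∀ k, k ≠ 0 → T k 0 + ∑ j ∈ Finset.univ.erase 0, T k j * V j ≤ V k) →
      (∀ τ ∈ l, (∀ i j, i ≠ 0 → inc τ i j = T i j) ∧
        (∀ j, j ≠ 0 → (m + 1) * V j * inc τ 0 j + m ≤ inc τ 0 0) ∧
        ((inc τ).det = 1 ∨ (inc τ).det = -1)) →
      PisotMat (inc (compList l)) ∧ SemiConjToral (compList l)) ∧
    -- (5)
    (∀ (r w : Fin (m+1) → ℝ) (η : ℝ), Wts r w → 0 ≤ η → η < 1 →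
      (∀ τ ∈ l, Long r w η (inc τ) ∧ ((inc τ).det = 1 ∨ (inc τ).det = -1)) →
      PisotMat (inc (compList l)) ∧ SemiConjToral (compList l)) ∧
    -- (6)
    (∀ (X : Fin (m+1) → Fin (m+1) → ℝ) (θ : (Fin (m+1) → List (Fin (m+1))) → ℝ),
      (∀ i, X i i = 0) → (∀ i j, i ≠ j → 0 < X i j) →
      (∀ τ ∈ l, 0 ≤ θ τ ∧ ∀ i j, i ≠ j →
        ∑ k, ∑ k', (inc τ k i : ℝ) * (inc τ k' j : ℝ) * X k k' ≤ θ τ * X i j) →
      PisotMat (inc (compList l)) → ∀ (lam : ℝ) (ell : Fin (m+1) → ℝ), (∀ i, 0 < ell i) →
      (∀ j, ∑ i, ell i * (inc (compList l) i j : ℝ) = lam * ell j) →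
      (l.map θ).prod < lam → SemiConjToral (compList l)) :=
  ⟨fun a ha hlt hl => comp_loops hm a ha hlt l hne hl,
   fun hl => comp_short hm l hne hl,
   fun M htri hdet p hp hlt hl => loops_all hm M htri hdet p hp hlt l hne hl,
   fun T hnn htri V hV1 hV hl => short_all hm T hnn htri V hV1 hV l hne hl,
   fun _ _ _ hrw hη hη1 hl => long_all hm hrw hη hη1 l hne hl,
   fun X θ hX0 hX hl hM lam ell hell heig hΘ => perm_all X hX0 hX θ l hl hM lam ell hell heig hΘ⟩

end Pool.Agent.Results.MP_e732b0_an.FirstReturnLoops
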