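import Pool.Agent.Q132.PC.Semi

/-!
# The Pisot substitution conjecture passes to substitutions which agree in more than half of the edges

Let `M` be a nonnegative unimodular irreducible Pisot matrix and let `σ` be a substitution with
incidence matrix `M` which satisfies the Pisot substitution conjecture.  Then, for all large `n`,
every substitution `S` with incidence matrix `M ^ n` and prefix discrepancies at most `B` which, in
every block of length at least `δ |S a|` of every image, has at least the proportion `1/2 + η` of its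
edges in common with `σ^n` satisfies the conjecture, together with all compositions of `S` with
substitutions of bounded discrepancy.  `δ` depends only on `M` and `B`.

An edge of the word `w` is a pair (letter counts of `w.take k`, letter number `k` of `w`).

The proof goes through the converse of the coincidence criterion, which is proved in
`Pool/Agent/Q132/PC`: if `X σ` is semi-conjugate to a toral translation, then any two overlapping
edges of the stepped paths have, after `σ^n`, all but a proportion tending to zero of their edges in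
common.

Built on the library `Pool/Agent/H812R2/PI` (helper812 and others) and on `Pool/Agent/TH100/Pisot`.
-/

namespace Pool.Agent.Results.MP_e732b0_an.MajorityAgreement

open Pool.Agent.H812R2.PI

/-- The words `w` and `w'` have their edge number `k` in common: they agree at the place `k` and
their prefixes of length `k` contain each letter equally often. -/
def CommonEdge {d : ℕ} (w w' : List (Fin d)) (k : ℕ) : Prop :=
  ab (w.take k) = ab (w'.take k) ∧ w[k]? = w'[k]?

open Classical in
/-- In every block with at least `δ |S a|` consecutive places of every image `S a` the words `S a`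
and `ρ a` have at least the proportion `1/2 + η` of the edges in common. -/
def AgreeMoreThanHalf {d : ℕ} (δ η : ℝ) (S ρ : Fin d → List (Fin d)) : Prop :=
  ∀ (a : Fin d) (p J : ℕ), p + J ≤ (S a).length → δ * (S a).length ≤ J →
    (1 / 2 + η) * J ≤ (((Finset.range J).filter (fun r => CommonEdge (S a) (ρ a) (p + r))).card : ℝ)

open Classical in
/-- All but at most `c |S a|` edges of every image `S a` are edges of `ρ a`. -/
def AgreeUpTo {d : ℕ} (c : ℝ) (S ρ : Fin d → List (Fin d)) : Prop :=
  ∀ a : Fin d, (((Finset.range (S a).length).filter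
    (fun k => ¬ CommonEdge (S a) (ρ a) k)).card : ℝ) ≤ c * (S a).length

theorem maj_of_agree {d : ℕ} {δ η : ℝ} {S ρ : Fin d → List (Fin d)}
    (h : AgreeMoreThanHalf δ η S ρ) : Pool.Agent.Q132.PC.Maj δ η S ρ := by
  classical
  intro a p J h1 h2
  refine (h a p J h1 h2).trans ?_
  have h3 : ((Finset.range J).filter (fun r => CommonEdge (S a) (ρ a) (p + r))) =
      ((Finset.range J).filter (fun r =>
        Pool.Agent.Q132.PC.SameAt 0 (S a) (ρ a) (p + r) (p + r))) := by
    apply Finset.filter_congr
    intro r _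
    simp [CommonEdge, Pool.Agent.Q132.PC.SameAt]
  rw [h3]

theorem agree_of_upTo {d : ℕ} {δ : ℝ} {S ρ : Fin d → List (Fin d)}
    (h : AgreeUpTo (δ / 4) S ρ) : AgreeMoreThanHalf δ (1 / 4) S ρ := by
  classical
  intro a p J h1 h2
  have h3 := h a
  have h4 : (((Finset.range J).filter (fun r => ¬ CommonEdge (S a) (ρ a) (p + r))).card : ℝ) ≤
      (((Finset.range (S a).length).filter (fun k => ¬ CommonEdge (S a) (ρ a) k)).card : ℝ) := by
    have h5 : ((Finset.range J).filter (fun r => ¬ CommonEdge (S a) (ρ a) (p + r))).card ≤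
        ((Finset.range (S a).length).filter (fun k => ¬ CommonEdge (S a) (ρ a) k)).card := by
      refine Finset.card_le_card_of_injOn (fun r => p + r) ?_ ?_
      · intro r hr
        rw [Finset.mem_coe, Finset.mem_filter, Finset.mem_range] at hr ⊢
        exact ⟨by simp only; omega, hr.2⟩
      · intro r _ r' _ hrr
        simpa using hrr
    exact_mod_cast h5
  have h6 : (((Finset.range J).filter (fun r => CommonEdge (S a) (ρ a) (p + r))).card : ℝ) +
      (((Finset.range J).filter (fun r => ¬ CommonEdge (S a) (ρ a) (p + r))).card : ℝ) = J := by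
    have h7 := Finset.card_filter_add_card_filter_not (s := Finset.range J)
      (fun r => CommonEdge (S a) (ρ a) (p + r))
    rw [Finset.card_range] at h7
    exact_mod_cast h7
  linarith

/-- **Main theorem.** -/
theorem result {m : ℕ} (M : Matrix (Fin (m+1)) (Fin (m+1)) ℤ)
    (hnn : ∀ i j, 0 ≤ M i j) (hM : PisotMat M) (lam : ℝ) (hlam : 1 < lam)
    (u : Fin (m+1) → ℝ) (hu : ∀ i, ∑ j, (M i j : ℝ) * u j = lam * u i)
    (husum : ∑ i, u i = 1) :
    (∀ B : ℝ, 0 ≤ B → ∃ δ : ℝ, 0 < δ ∧
      ∀ σ : Fin (m+1) → List (Fin (m+1)), inc σ = M → SemiConjToral σ →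
        (∀ η : ℝ, 0 < η → ∃ n₀ : ℕ, ∀ n ≥ n₀, ∀ S ∈ SubSet u (M ^ n) B,
          AgreeMoreThanHalf δ η S (iter σ n) →
          ∀ l₁ l₂ : List (Fin (m+1) → List (Fin (m+1))),
            (∀ ρ ∈ l₁ ++ l₂, ∃ i, 1 ≤ i ∧ ρ ∈ SubSet u (M ^ i) B) →
            PisotMat (inc (compList (l₁ ++ [S] ++ l₂))) ∧
            SemiConjToral (compList (l₁ ++ [S] ++ l₂))) ∧
        (∃ n₀ : ℕ, ∀ n ≥ n₀, ∀ S ∈ SubSet u (M ^ n) B, AgreeUpTo (δ / 4) S (iter σ n) →
          ∀ l₁ l₂ : List (Fin (m+1) → List (Fin (m+1))),
            (∀ ρ ∈ l₁ ++ l₂, ∃ i, 1 ≤ i ∧ ρ ∈ SubSet u (M ^ i) B) →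
            PisotMat (inc (compList (l₁ ++ [S] ++ l₂))) ∧
            SemiConjToral (compList (l₁ ++ [S] ++ l₂)))) ∧
    ∃ q : ℕ, 1 ≤ q ∧ PisotMat (M ^ q) ∧ ∃ σ : Fin (m+1) → List (Fin (m+1)),
      inc σ = M ^ q ∧ SemiConjToral σ := by
  refine ⟨fun B hB => ?_, ?_⟩
  · obtain ⟨δ, hδ, h⟩ := Pool.Agent.Q132.PC.majority M hnn hM lam hlam u hu husum B hB
    refine ⟨δ, hδ, fun σ hσ hS => ⟨fun η hη => ?_, ?_⟩⟩
    · obtain ⟨n₀, hn₀⟩ := h σ hσ hS η hη
      exact ⟨n₀, fun n hn S hSS hag => hn₀ n hn S hSS (maj_of_agree hag)⟩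
    · obtain ⟨n₀, hn₀⟩ := h σ hσ hS (1 / 4) (by norm_num)
      exact ⟨n₀, fun n hn S hSS hag => hn₀ n hn S hSS (maj_of_agree (agree_of_upTo hag))⟩
  · obtain ⟨n, τ, hn, hτ, h⟩ := Pool.Agent.TH100.Pisot.absorbing M hnn hM
    obtain ⟨K, hK⟩ := h 1
    obtain ⟨⟨N, hN, h1⟩, h2⟩ := hK K le_rfl [] [] (by simp)
    exact ⟨N, hN, Pool.Agent.TH100.Pisot.pisotMat_pow M hnn hM N hN, _, h1, h2⟩

end Pool.Agent.Results.MP_e732b0_an.MajorityAgreement
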